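import Mathlib

namespace Pool.Agent.Results.MP_21cc58_al.Order546

/-- Adjacency in the prime graph of `G`: distinct primes `p, q` dividing `|G|` such that `G` has
an element of order `p q`. -/
def GK (G : Type) [Group G] (p q : ℕ) : Prop :=
  p ∈ (Nat.card G).primeFactors ∧ q ∈ (Nat.card G).primeFactors ∧ p ≠ q ∧
    ∃ g : G, orderOf g = p * q

/-- Degree of `p` in the prime graph. -/
noncomputable def deg (G : Type) [Group G] (p : ℕ) : ℕ := {q | GK G p q}.ncard

/-- The degree pattern: degrees of the prime divisors of `|G|` in increasing order. -/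
noncomputable def pattern (G : Type) [Group G] : List ℕ :=
  ((Nat.card G).primeFactors.sort (· ≤ ·)).map (deg G)

@[ext] structure Aff (u : ZMod 91) where
  a : ZMod 91
  k : ZMod 6
  deriving DecidableEq

def Aff.equiv (u : ZMod 91) : Aff u ≃ ZMod 91 × ZMod 6 where
  toFun x := (x.a, x.k)
  invFun x := ⟨x.1, x.2⟩

instance (u : ZMod 91) : Fintype (Aff u) := Fintype.ofEquiv _ (Aff.equiv u).symm

theorem card_aff (u : ZMod 91) : Nat.card (Aff u) = 546 := by
  rw [Nat.card_congr (Aff.equiv u)]; simp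

theorem pw (u : ZMod 91) (hu : u ^ 6 = 1) (k l : ZMod 6) :
    u ^ (k + l).val = u ^ k.val * u ^ l.val := by
  rw [← pow_add, ZMod.val_add, ← pow_eq_pow_mod _ hu]

instance grp (u : ZMod 91) [h : Fact (u ^ 6 = 1)] : Group (Aff u) where
  mul x y := ⟨x.a + u ^ x.k.val * y.a, x.k + y.k⟩
  one := ⟨0, 0⟩
  inv x := ⟨-(u ^ (-x.k).val * x.a), -x.k⟩
  mul_assoc x y z := by
    ext
    · show (x.a + u ^ x.k.val * y.a) + u ^ (x.k + y.k).val * z.a =
        x.a + u ^ x.k.val * (y.a + u ^ y.k.val * z.a)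
      rw [pw u h.out]; ring
    · exact add_assoc _ _ _
  one_mul x := by
    ext
    · show (0 : ZMod 91) + u ^ (0 : ZMod 6).val * x.a = x.a
      simp
    · exact zero_add _
  mul_one x := by
    ext
    · show x.a + u ^ x.k.val * 0 = x.a
      simp
    · exact add_zero _
  inv_mul_cancel x := by
    ext
    · show -(u ^ (-x.k).val * x.a) + u ^ (-x.k).val * x.a = 0
      simp
    · exact neg_add_cancel _

instance f1 : Fact ((55 : ZMod 91) ^ 6 = 1) := ⟨by decide⟩
instance f2 : Fact ((51 : ZMod 91) ^ 6 = 1) := ⟨by decide⟩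

theorem pf : (546 : ℕ).primeFactors = {2, 3, 7, 13} := by
  have : (546 : ℕ) = 2 * 3 * 7 * 13 := by norm_num
  rw [this]
  simp (disch := norm_num) only [Nat.primeFactors_mul, Nat.Prime.primeFactors]
  rfl

theorem ord_of {G : Type} [Group G] (g : G) (p q : ℕ) (hp : p.Prime) (hq : q.Prime)
    (h1 : g ^ (p * q) = 1) (h2 : g ^ p ≠ 1) (h3 : g ^ q ≠ 1) : orderOf g = p * q := by
  refine orderOf_eq_of_pow_and_pow_div_prime (Nat.mul_pos hp.pos hq.pos) h1 fun r hr hd => ?_
  rcases (Nat.Prime.dvd_mul hr).1 hd with h | h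
  · rw [(Nat.prime_dvd_prime_iff_eq hr hp).1 h, Nat.mul_div_cancel_left _ hp.pos]; exact h3
  · rw [(Nat.prime_dvd_prime_iff_eq hr hq).1 h, Nat.mul_div_cancel _ hq.pos]; exact h2

theorem no_of {G : Type} [Group G] (p q : ℕ) (hp : 1 < p) (hq : 1 < q)
    (h : ∀ g : G, g ^ (p * q) = 1 → g ^ p = 1 ∨ g ^ q = 1) : ¬ ∃ g : G, orderOf g = p * q := by
  rintro ⟨g, hg⟩
  rcases h g (by rw [← hg]; exact pow_orderOf_eq_one g) with h | h
  · have := Nat.le_of_dvd (by omega) (orderOf_dvd_of_pow_eq_one h)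
    rw [hg] at this; nlinarith
  · have := Nat.le_of_dvd (by omega) (orderOf_dvd_of_pow_eq_one h)
    rw [hg] at this; nlinarith

theorem g6 : ∃ g : Aff 55, orderOf g = 6 :=
  ⟨⟨0, 1⟩, ord_of _ 2 3 (by norm_num) (by norm_num) (by decide) (by decide) (by decide)⟩
theorem g26 : ∃ g : Aff 55, orderOf g = 26 :=
  ⟨⟨14, 3⟩, ord_of _ 2 13 (by norm_num) (by norm_num) (by decide) (by decide) (by decide)⟩
theorem g21 : ∃ g : Aff 55, orderOf g = 21 :=
  ⟨⟨13, 2⟩, ord_of _ 3 7 (by norm_num) (by norm_num) (by decide) (by decide) (by decide)⟩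
theorem g91 : ∃ g : Aff 55, orderOf g = 91 :=
  ⟨⟨1, 0⟩, ord_of _ 7 13 (by norm_num) (by norm_num) (by decide +kernel) (by decide) (by decide)⟩
theorem g14 : ¬ ∃ g : Aff 55, orderOf g = 14 :=
  no_of 2 7 (by norm_num) (by norm_num) (by decide +kernel)
theorem g39 : ¬ ∃ g : Aff 55, orderOf g = 39 :=
  no_of 3 13 (by norm_num) (by norm_num) (by decide +kernel)
theorem m6 : ∃ g : Aff 51, orderOf g = 6 :=
  ⟨⟨0, 1⟩, ord_of _ 2 3 (by norm_num) (by norm_num) (by decide) (by decide) (by decide)⟩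
theorem m14 : ∃ g : Aff 51, orderOf g = 14 :=
  ⟨⟨13, 3⟩, ord_of _ 2 7 (by norm_num) (by norm_num) (by decide) (by decide) (by decide)⟩
theorem m39 : ∃ g : Aff 51, orderOf g = 39 :=
  ⟨⟨14, 2⟩, ord_of _ 3 13 (by norm_num) (by norm_num) (by decide +kernel) (by decide) (by decide)⟩
theorem m91 : ∃ g : Aff 51, orderOf g = 91 :=
  ⟨⟨1, 0⟩, ord_of _ 7 13 (by norm_num) (by norm_num) (by decide +kernel) (by decide) (by decide)⟩
theorem m21 : ¬ ∃ g : Aff 51, orderOf g = 21 :=
  no_of 3 7 (by norm_num) (by norm_num) (by decide +kernel)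
theorem m26 : ¬ ∃ g : Aff 51, orderOf g = 26 :=
  no_of 2 13 (by norm_num) (by norm_num) (by decide +kernel)

theorem deg_two (G : Type) [Group G] (p a b : ℕ) (hab : a ≠ b)
    (h : ∀ q, GK G p q ↔ q = a ∨ q = b) : deg G p = 2 := by
  have : {q | GK G p q} = {a, b} := by ext q; simp [h]
  rw [deg, this, Set.ncard_pair hab]

theorem degG (p : ℕ) (hp : p ∈ ({2, 3, 7, 13} : Finset ℕ)) : deg (Aff 55) p = 2 := by
  simp only [Finset.mem_insert, Finset.mem_singleton] at hp
  rcases hp with rfl | rfl | rfl | rfl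
  all_goals first
    | (refine deg_two _ _ 3 13 (by norm_num) fun q => ?_
       simp only [GK, card_aff, pf, Finset.mem_insert, Finset.mem_singleton]
       constructor
       · rintro ⟨-, rfl | rfl | rfl | rfl, h1, h2⟩ <;> simp_all [g14, g39]
       · rintro (rfl | rfl) <;> simp [g6, g26, g21, g91])
    | (refine deg_two _ _ 2 7 (by norm_num) fun q => ?_
       simp only [GK, card_aff, pf, Finset.mem_insert, Finset.mem_singleton]
       constructor
       · rintro ⟨-, rfl | rfl | rfl | rfl, h1, h2⟩ <;> simp_all [g14, g39]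
       · rintro (rfl | rfl) <;> simp [g6, g26, g21, g91])

theorem degM (p : ℕ) (hp : p ∈ ({2, 3, 7, 13} : Finset ℕ)) : deg (Aff 51) p = 2 := by
  simp only [Finset.mem_insert, Finset.mem_singleton] at hp
  rcases hp with rfl | rfl | rfl | rfl
  all_goals first
    | (refine deg_two _ _ 3 7 (by norm_num) fun q => ?_
       simp only [GK, card_aff, pf, Finset.mem_insert, Finset.mem_singleton]
       constructor
       · rintro ⟨-, rfl | rfl | rfl | rfl, h1, h2⟩ <;> simp_all [m21, m26]
       · rintro (rfl | rfl) <;> simp [m6, m14, m39, m91])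
    | (refine deg_two _ _ 2 13 (by norm_num) fun q => ?_
       simp only [GK, card_aff, pf, Finset.mem_insert, Finset.mem_singleton]
       constructor
       · rintro ⟨-, rfl | rfl | rfl | rfl, h1, h2⟩ <;> simp_all [m21, m26]
       · rintro (rfl | rfl) <;> simp [m6, m14, m39, m91])

theorem result : ¬ ∀ (G M : Type) [Group G] [Finite G] [Group M] [Finite M],
    Nat.card G = Nat.card M → pattern G = pattern M → GK G = GK M := by
  intro h
  have h1 := h (Aff 55) (Aff 51) (by rw [card_aff, card_aff]) (by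
    unfold pattern
    rw [card_aff, card_aff]
    refine List.map_congr_left fun p hp => ?_
    rw [Finset.mem_sort, pf] at hp
    rw [degG p hp, degM p hp])
  have h2 : GK (Aff 51) 2 7 := by
    simp only [GK, card_aff, pf]; simp [m14]
  rw [← h1] at h2
  exact g14 h2.2.2.2

end Pool.Agent.Results.MP_21cc58_al.Order546
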